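import Pool.Agent.H7.Wijs2
import Pool.Agent.H7.Wijs3

set_option autoImplicit false

namespace Pool.Agent.Results.MP_091b66_gt.Three

open Pool.Agent.H7.Wijs

/-- Pseudocompleteness and subcompactness pass to the Wijsman hyperspace; base-compactness
does not. -/
theorem result :
    (∀ (X : Type) [MetricSpace X], Pseudocomplete X → Pseudocomplete (Hyp X)) ∧
    (∀ (X : Type) [MetricSpace X], Subcompact X → Subcompact (Hyp X)) ∧
    (∃ (X : Type) (_ : MetricSpace X), BaseCompact X ∧ ¬ BaseCompact (Hyp X)) :=
  ⟨fun _ _ => pseudo, fun _ _ => subc, Z, inferInstance, baseZ, not_base⟩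

end Pool.Agent.Results.MP_091b66_gt.Three
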